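import Pool.Agent.X312.FM.Rat

/-!
# A gap law for the rationality of the invariants of the algebraic Sato-Tate groups

Let `k` be a finitely generated field of characteristic `0` with an embedding in `ℂ`, `ℓ` a prime,
and let `X` be **any** smooth projective variety over `k`. For `Z` smooth projective over `k` let
`Tate(Z)` be the space of the classes in `⊕_j H^(2 j)(Z, ℚ_ℓ(j))` which are invariant under the
Galois group of `k`, `Rat(Z)` the subspace generated by the rational classes (the classes from
Betti cohomology with rational coefficients) in `Tate(Z)`, and `Mot(Z)` the subspace generated by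
the motivated cycles over `k`, so that

`Mot(Z) ⊂ Rat(Z) ⊂ Tate(Z)`.

Suppose that Q1 is true for the motive `h^(2 j)(Z)(j)`, of weight `0`. The invariants of `G_ℓ =
AST_(ℚ_ℓ)` are generated by the rational invariants of the group `AST` over `ℚ`, and therefore
`Tate(Z) = Rat(Z)` in degree `2 j`. Conversely, a reductive group `G_(1, ℓ, k)` of a pure motive
`N` is the group which fixes its invariants in the tensor powers of `N`, so it comes from a group
over `ℚ` if `Tate(X ^ m) = Rat(X ^ m)` for all `m`, for some `X` such that `N` is cut out of
`h(X)`.

Let `M = (X ^ m, e)` be **any** irreducible motive with coefficients in `ℚ_ℓ` (defined by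
motivated correspondences over `k`), of rank `D`, and let `b` be the sum of the Betti numbers of
`X`. **Either all Tate classes in** `M` **are in** `Rat(X ^ m)`, **or for all** `n ≥ 1`

`dim Tate(X ^ n) ≥ dim Rat(X ^ n) + (D - 4 (m + 3) b ^ (m + 5) log (n + 1) / n) dim Mot(X ^ n)`.

Nothing is assumed on `X`. So one Tate class in `M` which is not a combination of rational Tate
classes gives almost `D dim Mot(X ^ n)` independent ones on `X ^ n` modulo the rational ones, for
all large `n`, of both parities. As `Rat ⊃ Mot`, this shows that `dim Tate(X ^ n) ≥ (D + 1 - ε_n)
dim Mot(X ^ n)`.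

The pairing on motivated cycles is nondegenerate by the Hodge index theorem (André).

The proof. Let `T(Z)` be the space of the Tate classes on `Z` modulo the combinations of rational
Tate classes, a functor on correspondences with `e T(P) ≠ 0`, `P = X ^ m`, and let `z ≠ 0` be in
`e T(P)`. If a correspondence `x` has `x z = 0` then `e x e` is not invertible on `M`, so it is
nilpotent, as `M` is irreducible, and the trace of `e x` vanishes; therefore `dim T(Z)` is at
least the rank of the trace form `(u, v) ↦ tr (e v u)` on the correspondences between `P` and `Z`,
and for `Z = X ^ n` this rank is at least `D - ε` times `dim Mot(X ^ n)`, by the log-convexity of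
the sequence of these dimensions and by the symmetric group.
-/

set_option autoImplicit false

open CategoryTheory AlgebraicGeometry

universe u v w

namespace Pool.Agent.Results.MP_92d903_ag.RationalityGapLaw

open Pool.Agent.H914 VarClass Obj WeilCohomology
open Pool.Agent.X312.FK (composite IrreducibleIn)
open Pool.Agent.X312.FC (corrRank rankBound)
open Pool.Agent.X312.FM (Family Has IsRingFamily IsModuleFamily IsNondeg dimOn
  IsRationalStructure rationalPart)
open Pool.Agent.Y133.Half (pw)

variable {k : Type u} [Field k] {𝒱 : VarClass k} {ops : CycleOps 𝒱}
  {W : WeilCohomology.{u, v} ops}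

/-- The sum of the Betti numbers of `X`. -/
noncomputable def totalBetti (W : WeilCohomology.{u, v} ops) (X : 𝒱.Obj) : ℕ :=
  Module.finrank W.K (W.H X)

/-- **The gap law for the rationality of the classes of a family.** In the intended use `C` and `N` are
the families of the spaces generated by the motivated cycles over `k` and of the Tate classes over `k`,
`Q Z` is the set of the classes in Betti cohomology with rational coefficients, `rationalPart Q N` is the
family of the spaces `Rat(Z)`, and `e` is the projection to an irreducible motive. Here `corrRank e` is
the rank of this motive, `dimOn C Z` is the dimension of `C Z`, and `pw X m` is the product of `m + 1`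
copies of `X`. -/
theorem result (C N : Family W) (hC : IsRingFamily C) (hN : IsModuleFamily C N)
    (Q : ∀ Z : 𝒱.Obj, Set (W.H Z)) (hQ : IsRationalStructure C Q) (X : 𝒱.Obj)
    (hX : ∀ n, IsNondeg C (pw X n)) (m : ℕ) (e : W.H ((pw X m).prod (pw X m)))
    (he : Has C e) (hee : composite W e e = e) (hirr : IrreducibleIn (Has C) e) :
    (∀ x : W.H (pw X m), Has N x → Has (rationalPart Q N) (W.corr e x)) ∨
    ∀ n : ℕ, dimOn (rationalPart Q N) (pw X n) +
      rankBound (corrRank e) (totalBetti W X) (dimOn C (pw X n)) m n ≤
      dimOn N (pw X n) :=
  Pool.Agent.X312.FM.rat_law hC hQ hN X hX he hee hirr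

end Pool.Agent.Results.MP_92d903_ag.RationalityGapLaw
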